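import Pool.Agent.Helper79.PG.Defs
import Pool.Agent.Helper33.PG.Herbst

/-!
# Project PG (MP_13b103_pr), block H: independent copies in disjoint translates

The passage time `T (cut B R c) 0 q` for the weights `c = X (sh (z j) ·)` depends only on the
edges of the translate of `R` by `z j`; these translates are disjoint.
-/

set_option autoImplicit false

namespace Pool.Agent.Helper10.PG

open MeasureTheory ProbabilityTheory
open Pool.Agent.Helper79.GR Pool.Agent.Helper79.PG Pool.Agent.Helper33.PG

/-- events which depend on disjoint families of independent variables -/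
theorem indep_inter {Ω ι κ : Type*} [mΩ : MeasurableSpace Ω] {P : Measure Ω}
    [IsProbabilityMeasure P] {X : ι → Ω → ℝ} (hX : ∀ i, Measurable (X i)) (hi : iIndepFun X P)
    (S : κ → Set ι) (A : κ → Set Ω) (s : Finset κ)
    (hS : ∀ i ∈ s, ∀ j ∈ s, i ≠ j → Disjoint (S i) (S j))
    (hA : ∀ j ∈ s, MeasurableSet[⨆ i ∈ S j, MeasurableSpace.comap (X i) inferInstance] (A j)) :
    P.real (⋂ j ∈ s, A j) = ∏ j ∈ s, P.real (A j) := by
  classical
  induction s using Finset.induction_on with
  | empty => simp
  | insert k s hk ih =>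
    have ih' := ih (fun i hi' j hj hij => hS i (Finset.mem_insert_of_mem hi') j
      (Finset.mem_insert_of_mem hj) hij) (fun j hj => hA j (Finset.mem_insert_of_mem hj))
    have hle : ∀ i, MeasurableSpace.comap (X i) inferInstance ≤ mΩ := fun i => (hX i).comap_le
    have hind : iIndep (fun i => MeasurableSpace.comap (X i) inferInstance) P := hi
    have hd : Disjoint (S k) (⋃ j ∈ s, S j) := by
      rw [Set.disjoint_iUnion₂_right]
      intro j hj
      exact hS k (Finset.mem_insert_self _ _) j (Finset.mem_insert_of_mem hj)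
        (fun e => hk (e ▸ hj))
    have h2 := indep_iSup_of_disjoint hle hind hd
    have h3 : MeasurableSet[⨆ i ∈ ⋃ j ∈ s, S j, MeasurableSpace.comap (X i) inferInstance]
        (⋂ j ∈ s, A j) := by
      refine Finset.measurableSet_biInter s fun j hj => ?_
      refine (biSup_mono ?_ : (⨆ i ∈ S j, MeasurableSpace.comap (X i) inferInstance) ≤
        ⨆ i ∈ ⋃ j ∈ s, S j, MeasurableSpace.comap (X i) inferInstance) _
          (hA j (Finset.mem_insert_of_mem hj))
      intro i hi'
      exact Set.mem_iUnion₂.2 ⟨j, hj, hi'⟩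
    have h4 := (Indep_iff _ _ P).1 h2 (A k) (⋂ j ∈ s, A j) (hA k (Finset.mem_insert_self _ _)) h3
    rw [Finset.set_biInter_insert, Finset.prod_insert hk, ← ih']
    unfold Measure.real
    rw [h4, ENNReal.toReal_mul]

variable {Ω : Type*} [MeasurableSpace Ω] {d : ℕ} {P : Measure Ω} {X : Edge d → Ω → ℝ}
  {ν : Measure ℝ} {a b B : ℝ}

theorem sh_disjoint {R : Finset (Edge d)} {u v : V d}
    (hz : ∀ e ∈ R, ∀ e' ∈ R, ∀ x ∈ e.1, ∀ x' ∈ e'.1, u + x ≠ v + x') :
    Disjoint (sh u '' (R : Set (Edge d))) (sh v '' (R : Set (Edge d))) := by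
  rw [Set.disjoint_left]
  rintro f ⟨e, he, rfl⟩ ⟨e', he', h⟩
  obtain ⟨x, y, hxy, -⟩ := e.2
  have hx : x ∈ e.1 := by
    rw [hxy]
    exact Sym2.mem_mk_left x y
  have h1 : x + u ∈ (sh u e).1 := Sym2.mem_map.2 ⟨x, hx, rfl⟩
  rw [← h] at h1
  obtain ⟨x', hx', h2⟩ := Sym2.mem_map.1 h1
  exact hz e he e' he' x hx x' hx' (by rw [add_comm u x, add_comm v x']; exact h2.symm)

/-- independent copies in disjoint translates -/
theorem indep_tubes (h : Env P X ν a b) (hB : b ≤ B) (R : Finset (Edge d)) (q : V d) (t : ℝ)
    (r : ℕ) (z : Fin r → V d)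
    (hz : ∀ i j, i ≠ j → ∀ e ∈ R, ∀ e' ∈ R, ∀ x ∈ e.1, ∀ x' ∈ e'.1, z i + x ≠ z j + x') :
    P.real {ω | ∀ j, t < T (cf X ω) (z j) (z j + q)} ≤
      (1 - P.real {ω | T (cut B R (cf X ω)) 0 q ≤ t}) ^ r := by
  classical
  have := h.prob
  have hmeas : ∀ v : V d, Measurable fun ω => T (cut B R (fun e => X (sh v e) ω)) 0 q :=
    fun v => (measurable_T_cut B R 0 q).comp (measurable_pi_lambda _ fun e => h.meas (sh v e))
  set A : Fin r → Set Ω := fun j => {ω | t < T (cut B R (fun e => X (sh (z j) e) ω)) 0 q} with hA
  have hkey := indep_inter h.meas h.indep (fun j : Fin r => sh (z j) '' (R : Set (Edge d))) A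
    Finset.univ (fun i _ j _ hij => sh_disjoint (hz i j hij)) (by
      intro j _
      have h1 : Measurable[⨆ i ∈ sh (z j) '' (R : Set (Edge d)),
          MeasurableSpace.comap (X i) inferInstance]
          fun ω => T (cut B R (fun e => X (sh (z j) e) ω)) 0 q := by
        refine (measurable_T_cfg 0 q).comp ?_
        refine @measurable_pi_lambda _ _ _ (_) _ _ fun e => ?_
        unfold cut
        by_cases he : e ∈ R
        · simp only [he, if_true]
          have h2 : MeasurableSpace.comap (X (sh (z j) e)) inferInstance ≤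
              ⨆ i ∈ sh (z j) '' (R : Set (Edge d)),
                MeasurableSpace.comap (X i) inferInstance :=
            le_biSup (fun i => MeasurableSpace.comap (X i) inferInstance)
              (Set.mem_image_of_mem _ (Finset.mem_coe.2 he))
          exact (comap_measurable (X (sh (z j) e))).mono h2 le_rfl
        · simp only [he, if_false]
          exact measurable_const
      exact h1 measurableSet_Ioi)
  have hp : ∀ j, P.real (A j) = 1 - P.real {ω | T (cut B R (cf X ω)) 0 q ≤ t} := by
    intro j
    have e1 : P.real (A j) = P.real {ω | t < T (cut B R (cf X ω)) 0 q} := by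
      have hM : MeasurableSet {c : Edge d → ℝ | t < T (cut B R c) 0 q} :=
        measurable_T_cut B R 0 q measurableSet_Ioi
      have h1 : P.map (fun ω e => X (sh (z j) e) ω) {c : Edge d → ℝ | t < T (cut B R c) 0 q} =
          P (A j) :=
        Measure.map_apply (measurable_pi_iff.2 fun e => h.meas (sh (z j) e)) hM
      have h2 : P.map (fun ω e => X e ω) {c : Edge d → ℝ | t < T (cut B R c) 0 q} =
          P {ω | t < T (cut B R (cf X ω)) 0 q} :=
        Measure.map_apply (measurable_pi_iff.2 h.meas) hM
      unfold Measure.real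
      rw [← h1, ← h2, map_shift h (z j)]
    have e2 : {ω | t < T (cut B R (cf X ω)) 0 q} = {ω | T (cut B R (cf X ω)) 0 q ≤ t}ᶜ := by
      ext ω
      simp
    rw [e1, e2, measureReal_compl, probReal_univ]
    exact measurable_T_cut_env h R 0 q measurableSet_Iic
  calc P.real {ω | ∀ j, t < T (cf X ω) (z j) (z j + q)} ≤ P.real (⋂ j ∈ Finset.univ, A j) := by
        refine measureReal_mono ?_
        intro ω hω
        simp only [Set.mem_iInter]
        intro j _
        have h1 : t < T (cf X ω) (z j) (z j + q) := hω j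
        have h2 := T_shift (cf X ω) (z j) 0 q
        rw [zero_add, add_comm q] at h2
        rw [← h2] at h1
        refine lt_of_lt_of_le h1 ?_
        have hbd : Bd a b (fun e => cf X ω (sh (z j) e)) := ⟨h.apos, fun e => h.bd _ ω⟩
        by_cases hab : a ≤ b
        · refine T_mono hbd (cut_bd hbd hab hB R) (fun e => ?_) 0 q
          unfold cut
          split_ifs
          · exact le_rfl
          · exact (h.bd _ ω).2.trans hB
        · have he : IsEmpty (Edge d) := ⟨fun e => hab ((h.bd e ω).1.trans (h.bd e ω).2)⟩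
          have : (fun e => cf X ω (sh (z j) e)) = cut B R (fun e => X (sh (z j) e) ω) :=
            funext fun e => (he.false e).elim
          rw [this]
    _ = ∏ j : Fin r, P.real (A j) := hkey
    _ = (1 - P.real {ω | T (cut B R (cf X ω)) 0 q ≤ t}) ^ r := by
        rw [Finset.prod_congr rfl fun j _ => hp j, Finset.prod_const, Finset.card_univ,
          Fintype.card_fin]

end Pool.Agent.Helper10.PG
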